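import Pool.Agent.Helper93.TH3.StD
import Pool.Agent.Helper16.W3.M_SubA
import Pool.Agent.Helper25.W3.M_SubB
import Pool.Agent.Helper86.W3.M_Prd
import Pool.Agent.Helper6.W3.M_Nf

/-!
# Project TH (levels `2·3^n`, `W_2 = +1`), module LdV: leading forms of `T_31 + T_5² - T_7 - T_13 - 1`

Adapted from `Pool/Agent/Helper22/TH3/M_LdU.lean`.
-/

set_option autoImplicit false

namespace Pool.Agent.Helper80.TH3

open Pool.Agent.Helper14.CV (Homog EqC act Tl StFar StFex)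
open Pool.Agent.Helper28.WK (Tw evw)
open Pool.Agent.Helper78.W3 (tr Fn3 Tm opL op3 mulT mulL negL Wd3 dX dY oD oN Lw sS M5 bb3 S3PlA S3Trm S3Low0 S3Nf S3Exp
  S3Lw1 S3Bb)
open Pool.Agent.Helper93.TLH (HTy SymH SHHk SHHkS LBH)
open Pool.Agent.Helper93.TLE (DDE)
open Pool.Agent.Helper93.TH3

section lists

variable {q q' : ℕ}

private lemma opL_nil : (opL [] : Module.End (ZMod 3) (Fn3 q q')) = 0 := by simp [opL]

private lemma opL_cons (t : Tm) (L : List Tm) : (opL (t :: L) : Module.End (ZMod 3) (Fn3 q q')) =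
    ((t.1 : ℤ) : ZMod 3) • op3 t.2.1 t.2.2.1 t.2.2.2.1 t.2.2.2.2 + opL L := by simp [opL]

private lemma opL_app (L L' : List Tm) :
    (opL (L ++ L') : Module.End (ZMod 3) (Fn3 q q')) = opL L + opL L' := by simp [opL]

private lemma opL_scT (n : ℤ) (L : List Tm) :
    (opL (scT n L) : Module.End (ZMod 3) (Fn3 q q')) = ((n : ℤ) : ZMod 3) • opL L := by
  induction L with
  | nil => simp [scT, opL_nil]
  | cons t L ih =>
    have h : scT n (t :: L) = (n * t.1, t.2) :: scT n L := rfl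
    rw [h, opL_cons, opL_cons, ih, smul_add, smul_smul]
    push_cast
    rfl

private lemma sub_smul3 (a b : ZMod 3) (X : Module.End (ZMod 3) (Fn3 q q')) : (a - b) • X = a • X - b • X := by
  refine LinearMap.ext fun F => ?_
  funext x y
  change (a - b) * X F x y = a * X F x y - b * X F x y
  ring

private lemma sum_aux {ι : Type} (S : Finset ι) (a b : ι → ZMod 3) (X : ι → Module.End (ZMod 3) (Fn3 q q')) :
    ∑ t ∈ S, (a t - b t) • X t = ∑ t ∈ S, a t • X t - ∑ t ∈ S, b t • X t := by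
  rw [← Finset.sum_sub_distrib]
  exact Finset.sum_congr rfl fun t _ => sub_smul3 _ _ _

end lists

/-! ### good lists -/

private lemma gd_app {L L' : List Tm} (h : ∀ t ∈ L, GdT t) (h' : ∀ t ∈ L', GdT t) : ∀ t ∈ L ++ L', GdT t := by
  intro t ht
  rcases List.mem_append.1 ht with h1 | h1
  · exact h t h1
  · exact h' t h1

private lemma gd_sc (n : ℤ) {L : List Tm} (h : ∀ t ∈ L, GdT t) : ∀ t ∈ scT n L, GdT t := by
  intro t ht
  unfold scT at ht
  obtain ⟨u, hu, rfl⟩ := List.mem_map.1 ht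
  exact h u hu

private lemma gd_id (n : ℤ) (i f : Fin 5) : ∀ t ∈ idT n i f, GdT t := by
  intro t ht
  unfold idT at ht
  split_ifs at ht with h
  · rw [List.mem_singleton] at ht
    subst ht
    exact ⟨by norm_num, by norm_num⟩
  · simp at ht

private lemma gd_mul {L L' : List Tm} (h : ∀ t ∈ L, GdT t) (h' : ∀ t ∈ L', GdT t) : ∀ t ∈ mulL L L', GdT t := by
  intro t ht
  unfold mulL at ht
  obtain ⟨u, hu, h1⟩ := List.mem_flatMap.1 ht
  obtain ⟨v, hv, rfl⟩ := List.mem_map.1 h1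
  obtain ⟨a1, a2⟩ := h u hu
  obtain ⟨b1, b2⟩ := h' v hv
  have hp : Prime (3 : ℤ) := Int.prime_three
  refine ⟨?_, ?_⟩
  · show ¬ (3 : ℤ) ∣ u.2.1 * v.2.1 + 9 * u.2.2.1 * v.2.2.2.1
    intro h9
    have h8 : (3 : ℤ) ∣ u.2.1 * v.2.1 := by
      have e : u.2.1 * v.2.1 = (u.2.1 * v.2.1 + 9 * u.2.2.1 * v.2.2.2.1) - 3 * (3 * u.2.2.1 * v.2.2.2.1) := by ring
      rw [e]
      exact dvd_sub h9 (dvd_mul_right _ _)
    rcases hp.dvd_or_dvd h8 with h7 | h7
    · exact a1 h7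
    · exact b1 h7
  · show ¬ (3 : ℤ) ∣ 9 * u.2.2.2.1 * v.2.2.1 + u.2.2.2.2 * v.2.2.2.2
    intro h9
    have h8 : (3 : ℤ) ∣ u.2.2.2.2 * v.2.2.2.2 := by
      have e : u.2.2.2.2 * v.2.2.2.2 = (9 * u.2.2.2.1 * v.2.2.1 + u.2.2.2.2 * v.2.2.2.2) -
        3 * (3 * u.2.2.2.1 * v.2.2.1) := by ring
      rw [e]
      exact dvd_sub h9 (dvd_mul_right _ _)
    rcases hp.dvd_or_dvd h8 with h7 | h7
    · exact a2 h7
    · exact b2 h7

section ops

variable {r s : ℕ}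

private lemma op3_mul (hTrm : S3Trm) (a b c d a' b' c' d' : ℤ) (ha : ¬ 3 ∣ a) (hd : ¬ 3 ∣ d) (ha' : ¬ 3 ∣ a')
    (hd' : ¬ 3 ∣ d') : (op3 a b c d * op3 a' b' c' d' : Module.End (ZMod 3) (Fn3 (3 ^ r) (3 ^ s))) =
      op3 (a * a' + 9 * b * c') (a * b' + b * d') (c * a' + d * c') (9 * c * b' + d * d') := by
  refine LinearMap.ext fun F => ?_
  exact (hTrm (ZMod 3) r s F).1 a b c d a' b' c' d' ha hd ha' hd'

private lemma opL_map (hTrm : S3Trm) (t : Tm) (ht : GdT t) (L : List Tm)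
    (hL : ∀ t ∈ L, GdT t) : (opL (L.map fun t' => mulT t t') : Module.End (ZMod 3) (Fn3 (3 ^ r) (3 ^ s))) =
      (((t.1 : ℤ) : ZMod 3) • op3 t.2.1 t.2.2.1 t.2.2.2.1 t.2.2.2.2) * opL L := by
  induction L with
  | nil => simp [opL_nil]
  | cons t' L ih =>
    have h1 := hL t' List.mem_cons_self
    rw [List.map_cons, opL_cons, opL_cons, ih fun x hx => hL x (List.mem_cons_of_mem _ hx), mul_add]
    congr 1
    rw [smul_mul_smul_comm, op3_mul hTrm _ _ _ _ _ _ _ _ ht.1 ht.2 h1.1 h1.2]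
    unfold mulT
    push_cast
    rfl

private lemma opL_mul (hTrm : S3Trm) (L L' : List Tm) (hL : ∀ t ∈ L, GdT t) (hL' : ∀ t ∈ L', GdT t) :
    (opL (mulL L L') : Module.End (ZMod 3) (Fn3 (3 ^ r) (3 ^ s))) = opL L * opL L' := by
  induction L with
  | nil => simp [mulL, opL_nil]
  | cons t L ih =>
    have h : mulL (t :: L) L' = (L'.map fun t' => mulT t t') ++ mulL L L' := by
      unfold mulL
      rw [List.flatMap_cons]
    rw [h, opL_app, opL_map hTrm t (hL t List.mem_cons_self) L' hL', opL_cons, add_mul,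
      ih fun x hx => hL x (List.mem_cons_of_mem _ hx)]

/-- A multiple of a relation vanishes. -/
private lemma mulrel (hTrm : S3Trm) (hr : TRll) (F : Fin 5 → Fn3 (3 ^ r) (3 ^ s)) (h : RelT F)
    (ρ : Fin 3) (U : List Tm) (hU : ∀ t ∈ U, GdT t) (hR : ∀ f, ∀ t ∈ relT ρ f, GdT t) :
    ∑ f : Fin 5, opL (mulL U (relT ρ f)) (F f) = 0 := by
  have h1 : ∀ f : Fin 5, opL (mulL U (relT ρ f)) (F f) = (opL U) (opL (relT ρ f) (F f)) := by
    intro f
    rw [opL_mul hTrm U (relT ρ f) hU (hR f)]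
    rfl
  rw [Finset.sum_congr rfl fun f _ => h1 f, ← map_sum, hr r s F h ρ, map_zero]

/-- The multiples of the relations vanish. -/
private lemma rm_zero (hTrm : S3Trm) (hr : TRll) (F : Fin 5 → Fn3 (3 ^ r) (3 ^ s)) (h : RelT F)
    (M : Fin 5 → Fin 3 → List Tm) (i : Fin 5) (hU : ∀ ρ, ∀ t ∈ M i ρ, GdT t) (hR : ∀ ρ f, ∀ t ∈ relT ρ f, GdT t) :
    ∑ f : Fin 5, opL (scT (-1) (rmT M i f)) (F f) = 0 := by
  have e : ∀ f : Fin 5, opL (scT (-1) (rmT M i f)) (F f) = ((-1 : ℤ) : ZMod 3) •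
      (opL (mulL (M i 0) (relT 0 f)) (F f) + opL (mulL (M i 1) (relT 1 f)) (F f) +
        opL (mulL (M i 2) (relT 2 f)) (F f)) := by
    intro f
    rw [opL_scT]
    unfold rmT
    rw [opL_app, opL_app]
    rfl
  rw [Finset.sum_congr rfl fun f _ => e f, ← Finset.smul_sum, Finset.sum_add_distrib, Finset.sum_add_distrib,
    mulrel hTrm hr F h 0 (M i 0) (hU 0) (hR 0), mulrel hTrm hr F h 1 (M i 1) (hU 1) (hR 1),
    mulrel hTrm hr F h 2 (M i 2) (hU 2) (hR 2), add_zero, add_zero, smul_zero]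

/-- the monomials -/
private def mon (t : ℕ × ℕ × ℕ) : Module.End (ZMod 3) (Fn3 (3 ^ r) (3 ^ s)) :=
  (oD - 1) ^ t.1 * dX ^ t.2.1 * dY ^ t.2.2

private lemma lw_zero (k : ℤ) : Lw (0 : Module.End (ZMod 3) (Fn3 (3 ^ r) (3 ^ s))) k := by
  intro d F _
  rw [LinearMap.zero_apply]
  exact Submodule.zero_mem _

private lemma lw_pow (hLow0 : S3Low0) (O : Module.End (ZMod 3) (Fn3 (3 ^ r) (3 ^ s))) (k : ℕ) (h : Lw O k) (n : ℕ) :
    Lw (O ^ n) ((k * n : ℕ) : ℤ) := by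
  obtain ⟨l1, l2, l3, l4, l5, l6, l7, l8, _⟩ := hLow0 r s
  induction n with
  | zero => simpa using l6
  | succ n ih =>
    rw [pow_succ]
    have := l1 _ _ _ _ ih h
    have e : ((k * n : ℕ) : ℤ) + k = ((k * (n + 1) : ℕ) : ℤ) := by push_cast; ring
    rw [e] at this
    exact this

private lemma lw_mon (hLow0 : S3Low0) (hNf : S3Nf) (t : ℕ × ℕ × ℕ) :
    Lw (mon t : Module.End (ZMod 3) (Fn3 (3 ^ r) (3 ^ s))) ((2 * t.1 + t.2.1 + t.2.2 : ℕ) : ℤ) := by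
  obtain ⟨l1, l2, l3, l4, l5, l6, l7, l8, _⟩ := hLow0 r s
  have h0 := lw_pow hLow0 (oD - 1 : Module.End (ZMod 3) (Fn3 (3 ^ r) (3 ^ s))) 2 (hNf r s).1 t.1
  have h1 := lw_pow hLow0 (dX : Module.End (ZMod 3) (Fn3 (3 ^ r) (3 ^ s))) 1 (by exact_mod_cast l7) t.2.1
  have h2 := lw_pow hLow0 (dY : Module.End (ZMod 3) (Fn3 (3 ^ r) (3 ^ s))) 1 (by exact_mod_cast l8) t.2.2
  have h := l1 _ _ _ _ (l1 _ _ _ _ h0 h1) h2
  have e : ((2 * t.1 : ℕ) : ℤ) + ((1 * t.2.1 : ℕ) : ℤ) + ((1 * t.2.2 : ℕ) : ℤ)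
      = ((2 * t.1 + t.2.1 + t.2.2 : ℕ) : ℤ) := by push_cast; ring
  rw [e] at h
  exact h

private lemma lw_sum (hLow0 : S3Low0) {ι : Type} (S : Finset ι) (O : ι → Module.End (ZMod 3) (Fn3 (3 ^ r) (3 ^ s)))
    (k : ℤ) (h : ∀ i ∈ S, Lw (O i) k) : Lw (∑ i ∈ S, O i) k := by
  classical
  obtain ⟨l1, l2, _⟩ := hLow0 r s
  induction S using Finset.induction_on with
  | empty => simpa using lw_zero k
  | insert a S ha ih =>
    rw [Finset.sum_insert ha]
    exact l2 _ _ _ (h a (Finset.mem_insert_self _ _)) (ih fun i hi => h i (Finset.mem_insert_of_mem hi))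

/-- the expansion with prescribed coefficients -/
private lemma key (hLow0 : S3Low0) (hNf : S3Nf) (hExp : S3Exp) (L : List Tm)
    (hL : ∀ t ∈ L, (t.2.1 * t.2.2.2.2) % 3 = 1) (k : ℕ) (hk : k ≤ 5) (c : ℕ × ℕ × ℕ → ZMod 3)
    (hc : ∀ t ∈ M5, 2 * t.1 + t.2.1 + t.2.2 < k → ((sS L t.1 t.2.1 t.2.2 : ℤ) : ZMod 3) = c t) :
    Lw ((opL L : Module.End (ZMod 3) (Fn3 (3 ^ r) (3 ^ s))) - ∑ t ∈ M5, c t • mon t) k := by
  obtain ⟨l1, l2, l3, l4, _⟩ := hLow0 r s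
  have h0 : Lw ((opL L : Module.End (ZMod 3) (Fn3 (3 ^ r) (3 ^ s))) - ∑ t ∈ M5, ((sS L t.1 t.2.1 t.2.2 : ℤ) : ZMod 3) •
      (mon t : Module.End (ZMod 3) (Fn3 (3 ^ r) (3 ^ s)))) 5 := by
    have := hExp r s L hL
    unfold mon
    convert this using 2
  have h1 := l4 _ _ (k : ℤ) (by exact_mod_cast hk) h0
  have h2 : Lw (∑ t ∈ M5, (((sS L t.1 t.2.1 t.2.2 : ℤ) : ZMod 3) - c t) •
      (mon t : Module.End (ZMod 3) (Fn3 (3 ^ r) (3 ^ s)))) k := by
    refine lw_sum hLow0 _ _ _ fun t ht => ?_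
    by_cases hw : 2 * t.1 + t.2.1 + t.2.2 < k
    · rw [hc t ht hw, sub_self, zero_smul]
      exact lw_zero _
    · exact l3 _ _ _ (l4 _ _ (k : ℤ) (by exact_mod_cast not_lt.1 hw) (lw_mon hLow0 hNf t))
  have h3 := l2 _ _ _ h1 h2
  rw [sum_aux M5 (fun t => ((sS L t.1 t.2.1 t.2.2 : ℤ) : ZMod 3)) c
    (fun t => (mon t : Module.End (ZMod 3) (Fn3 (3 ^ r) (3 ^ s)))), sub_add_sub_cancel] at h3
  exact h3

private lemma cast3 {S C : ℤ} (h : (3 : ℤ) ∣ S - C) : (S : ZMod 3) = (C : ZMod 3) := by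
  have h1 := (ZMod.intCast_zmod_eq_zero_iff_dvd (S - C) 3).2 (by exact_mod_cast h)
  push_cast at h1
  exact sub_eq_zero.1 h1

private lemma cast0 {S : ℤ} (h : (3 : ℤ) ∣ S) : (S : ZMod 3) = 0 :=
  (ZMod.intCast_zmod_eq_zero_iff_dvd S 3).2 (by exact_mod_cast h)

private lemma sum_M5 (S : Finset (ℕ × ℕ × ℕ)) (hS : S ⊆ M5) (c : ℕ × ℕ × ℕ → ZMod 3) (hc : ∀ t, t ∉ S → c t = 0) :
    ∑ t ∈ M5, c t • (mon t : Module.End (ZMod 3) (Fn3 (3 ^ r) (3 ^ s))) = ∑ t ∈ S, c t • mon t := by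
  refine (Finset.sum_subset hS fun t _ hn => ?_).symm
  rw [hc t hn, zero_smul]

end ops

private lemma gd_mm {M N : Fin 5 → Fin 5 → List Tm} (hM : ∀ i f, ∀ t ∈ M i f, GdT t)
    (hN : ∀ i f, ∀ t ∈ N i f, GdT t) (i f : Fin 5) : ∀ t ∈ mmT M N i f, GdT t :=
  gd_app (gd_app (gd_app (gd_app (gd_mul (hM i 0) (hN 0 f)) (gd_mul (hM i 1) (hN 1 f)))
    (gd_mul (hM i 2) (hN 2 f))) (gd_mul (hM i 3) (hN 3 f))) (gd_mul (hM i 4) (hN 4 f))

private lemma gd_V (hg : TCeG) (i f : Fin 5) : ∀ t ∈ VLT i f, GdT t :=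
  gd_app (gd_app (gd_app (gd_app (hg.1 i f).2.2.2
    (gd_mm (fun i f => (hg.1 i f).1) (fun i f => (hg.1 i f).1) i f))
    (gd_sc _ (hg.1 i f).2.1)) (gd_sc _ (hg.1 i f).2.2.1)) (gd_id (-1) i f)

private lemma gd_B (hg : TCeG) (i f : Fin 5) : ∀ t ∈ BVT i f, GdT t := by
  have ar : ∀ ρ, ∀ t ∈ relT ρ f, GdT t := fun ρ => hg.2.1 ρ f
  have av : ∀ ρ, ∀ t ∈ mVT i ρ, GdT t := fun ρ => (hg.2.2 i ρ).2.1
  exact gd_app (gd_V hg i f) (gd_sc _ (gd_app (gd_app (gd_mul (av 0) (ar 0)) (gd_mul (av 1) (ar 1)))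
    (gd_mul (av 2) (ar 2))))

/-- Module LdV. -/
theorem hLdV (ht : S3Trm) (hl : S3Low0) (he : S3Exp) (h1 : S3Lw1) (hs : TSpl) (hr : TRll) (hg : TCeG)
    (hc : TCeV) : TLdV := by
  intro r s d F hR hF i
  have hNf : S3Nf := Pool.Agent.Helper6.W3.hNf hl
    (Pool.Agent.Helper16.W3.hSubA hl (Pool.Agent.Helper86.W3.hPrd hl))
    (Pool.Agent.Helper25.W3.hSubB hl (Pool.Agent.Helper86.W3.hPrd hl))
  obtain ⟨-, -, -, -, wN, -, -⟩ := h1 r s
  obtain ⟨l1, l2, l3, l4, _⟩ := hl r s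
  -- modulo the relations
  have eV : ∑ f : Fin 5, opL (VLT i f) (F f) = ∑ f : Fin 5, opL (BVT i f) (F f) := by
    have h0 := rm_zero ht hr F hR mVT i (fun ρ => (hg.2.2 i ρ).2.1) (fun ρ f => hg.2.1 ρ f)
    have e : ∀ f : Fin 5, opL (BVT i f) (F f) = opL (VLT i f) (F f) + opL (scT (-1) (rmT mVT i f)) (F f) := by
      intro f
      unfold BVT
      rw [opL_app]
      rfl
    rw [Finset.sum_congr rfl fun f _ => e f, Finset.sum_add_distrib, h0, add_zero]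
  -- every column
  have hB : ∀ f, Lw ((opL (BVT i f) : Module.End (ZMod 3) (Fn3 (3 ^ r) (3 ^ s))) - if f = i then LoT else 0) 5 := by
    intro f
    obtain ⟨s1, s2, s3⟩ := hs r s (BVT i f) (gd_B hg i f)
    have hA : Lw ((opL (pA (BVT i f)) : Module.End (ZMod 3) (Fn3 (3 ^ r) (3 ^ s))) - if f = i then LoT else 0) 5 := by
      have h := key hl hNf he (r := r) (s := s) (pA (BVT i f)) s2 5 (by norm_num)
        (fun t => (((if f = i ∧ (t = (0, 3, 1) ∨ t = (0, 2, 2) ∨ t = (0, 1, 3)) then 1 else 0 : ℤ)) : ZMod 3))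
        (fun t ht _ => cast3 (hc i f t ht).1)
      rw [sum_M5 {(0, 3, 1), (0, 2, 2), (0, 1, 3)} (by decide) _ (fun t ht => by
        rw [if_neg]
        · simp
        · rintro ⟨-, h2⟩
          exact ht (by rw [Finset.mem_insert, Finset.mem_insert, Finset.mem_singleton]; exact h2)),
        Finset.sum_insert (by decide), Finset.sum_insert (by decide), Finset.sum_singleton] at h
      by_cases hf : f = i
      · rw [if_pos ⟨hf, Or.inl rfl⟩, if_pos ⟨hf, Or.inr (Or.inl rfl)⟩, if_pos ⟨hf, Or.inr (Or.inr rfl)⟩,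
          Int.cast_one, one_smul, one_smul, one_smul] at h
        rw [if_pos hf]
        have e : (mon (0, 3, 1) + (mon (0, 2, 2) + mon (0, 1, 3)) : Module.End (ZMod 3) (Fn3 (3 ^ r) (3 ^ s))) =
            LoT := by
          unfold mon LoT
          simp only [pow_zero, one_mul, pow_one]
          rw [add_assoc]
        rw [e] at h
        exact_mod_cast h
      · rw [if_neg fun h9 => hf h9.1, if_neg fun h9 => hf h9.1, if_neg fun h9 => hf h9.1,
          Int.cast_zero, zero_smul, zero_smul, zero_smul, add_zero, add_zero] at h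
        rw [if_neg hf]
        exact_mod_cast h
    have hB' : Lw (opL (pB (BVT i f)) : Module.End (ZMod 3) (Fn3 (3 ^ r) (3 ^ s))) 5 := by
      have h := key hl hNf he (r := r) (s := s) (pB (BVT i f)) s3 5 (by norm_num) (fun _ => 0)
        (fun t ht _ => cast0 (hc i f t ht).2)
      simp only [zero_smul, Finset.sum_const_zero, sub_zero] at h
      exact_mod_cast h
    have hN := l1 _ _ _ _ wN hB'
    rw [zero_add] at hN
    have h3 := l2 _ _ _ hA hN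
    rw [s1]
    have e : (opL (pA (BVT i f)) - (if f = i then LoT else 0) + oN * opL (pB (BVT i f)) :
        Module.End (ZMod 3) (Fn3 (3 ^ r) (3 ^ s))) =
        opL (pA (BVT i f)) + oN * opL (pB (BVT i f)) - (if f = i then LoT else 0) := by abel
    rw [e] at h3
    exact h3
  have h2 : ∑ f : Fin 5, ((opL (BVT i f) - (if f = i then LoT else 0) :
      Module.End (ZMod 3) (Fn3 (3 ^ r) (3 ^ s))) (F f)) ∈ Wd3 (d - 5) :=
    Submodule.sum_mem _ fun f _ => hB f d (F f) (hF f)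
  have e1 : (∑ f : Fin 5, opL (VLT i f) (F f)) - LoT (F i) =
      ∑ f : Fin 5, ((opL (BVT i f) - (if f = i then LoT else 0) :
        Module.End (ZMod 3) (Fn3 (3 ^ r) (3 ^ s))) (F f)) := by
    have e2 : ∀ f : Fin 5, ((opL (BVT i f) - (if f = i then LoT else 0) :
        Module.End (ZMod 3) (Fn3 (3 ^ r) (3 ^ s))) (F f))
        = (opL (BVT i f)) (F f) - (if f = i then LoT (F f) else 0) := by
      intro f
      rw [LinearMap.sub_apply]
      by_cases hf : f = i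
      · rw [if_pos hf, if_pos hf]
      · rw [if_neg hf, if_neg hf, LinearMap.zero_apply]
    rw [Finset.sum_congr rfl fun f _ => e2 f, Finset.sum_sub_distrib,
      Finset.sum_ite_eq' Finset.univ i (fun f => LoT (F f)), if_pos (Finset.mem_univ i), eV]
  rw [e1]
  exact h2

end Pool.Agent.Helper80.TH3
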